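import Pool.Agent.Lib_MP_91def8_ins.Comb

set_option autoImplicit false

namespace Pool.Agent.LibMP91ins

open Subgroup SemidirectProduct

variable {F Q N : Type*} [Group F] [Group Q] [CommGroup N] {θ : Q →* MulAut N}

theorem pow_right (x : N ⋊[θ] Q) (n : ℕ) : (x ^ n).right = x.right ^ n := by
  have := map_pow (rightHom : N ⋊[θ] Q →* Q) x n
  simpa using this

theorem zpow_right (x : N ⋊[θ] Q) (n : ℤ) : (x ^ n).right = x.right ^ n := by
  have := map_zpow (rightHom : N ⋊[θ] Q →* Q) x n
  simpa using this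

theorem pow_left (x : N ⋊[θ] Q) (n : ℕ) :
    (x ^ n).left = ∏ i ∈ Finset.range n, θ (x.right ^ i) x.left := by
  induction n with
  | zero => simp
  | succ n ih =>
    rw [pow_succ, mul_left, Finset.prod_range_succ, ← ih, pow_right]

theorem eq_inl {x : N ⋊[θ] Q} (hx : x.right = 1) : x = inl x.left := by
  apply SemidirectProduct.ext
  · simp
  · simp [hx]

theorem conj_left (x r : N ⋊[θ] Q) (hr : r.right = 1) :
    (x * r * x⁻¹).left = θ x.right r.left := by
  rw [eq_inl hr]
  simp only [mul_left, inv_left, left_inl, right_inl, mul_right, mul_one, map_inv]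
  have : θ x.right ((θ x.right)⁻¹ x.left) = x.left := by
    rw [← MulAut.mul_apply, mul_inv_cancel, MulAut.one_apply]
  rw [this, mul_comm x.left, mul_assoc, mul_inv_cancel, mul_one]

theorem comm_ker : ⁅(rightHom : N ⋊[θ] Q →* Q).ker, (rightHom : N ⋊[θ] Q →* Q).ker⁆
    = (⊥ : Subgroup (N ⋊[θ] Q)) := by
  rw [← range_inl_eq_ker_rightHom, eq_bot_iff, commutator_le]
  rintro _ ⟨a, rfl⟩ _ ⟨b, rfl⟩
  rw [mem_bot, commutatorElement_eq_one_iff_mul_comm, ← map_mul, ← map_mul, mul_comm]

theorem list_prod_left (l : List (N ⋊[θ] Q)) (hl : ∀ x ∈ l, x.right = 1) :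
    l.prod.right = 1 ∧ l.prod.left = (l.map (fun x => x.left)).prod := by
  induction l with
  | nil => simp
  | cons a l ih =>
    have h1 := ih (fun x hx => hl x (List.mem_cons_of_mem _ hx))
    have h2 := hl a List.mem_cons_self
    rw [List.prod_cons, List.map_cons, List.prod_cons, mul_right, mul_left, h1.1, h1.2, h2]
    simp

/-- Averaging over the group: an element `h` whose conjugates act on `N` with product the power map
`m`, `m` prime to `p`, makes it possible to correct lifts of an element of order `p`. -/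
theorem good_of_avg [Fintype Q] {p : ℕ} (hp : p.Prime) (c h : Q) (hc : orderOf c = p) (m : ℤ)
    (hm : IsCoprime m (p : ℤ))
    (H : ∀ h' : Q, orderOf h' = orderOf h → ∀ x : N, ∏ q : Q, θ (q * h' * q⁻¹) x = x ^ m)
    (ρ : F →* Q) (hρ : Function.Surjective ρ) (B : Subgroup F) (hB : B.Normal)
    (hBρ : B.map ρ = ⊤) : ∃ t ∈ B, Good (rightHom : N ⋊[θ] Q →* Q) p ρ t := by
  classical
  obtain ⟨ct, hctB, hct⟩ : ∃ x ∈ B, ρ x = c := by
    have : c ∈ B.map ρ := by rw [hBρ]; exact mem_top _
    obtain ⟨x, hx, h1⟩ := this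
    exact ⟨x, hx, h1⟩
  obtain ⟨ht, hht⟩ := hρ h
  have hcp : c ^ p = 1 := by rw [← hc]; exact pow_orderOf_eq_one c
  -- the power of order `p`
  set D : Q := c ^ m with hD
  have := Fact.mk hp
  have hDp : orderOf D = p := by
    apply orderOf_eq_prime
    · rw [hD, ← zpow_natCast, ← zpow_mul, mul_comm, zpow_mul, zpow_natCast, hcp, one_zpow]
    · intro h1
      have h2 : (p : ℤ) ∣ m := by
        rw [← hc]
        exact orderOf_dvd_iff_zpow_eq_one.mpr h1
      have h3 : IsUnit (p : ℤ) := hm.isUnit_of_dvd' h2 dvd_rfl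
      rw [Int.isUnit_iff] at h3
      have := hp.two_le
      omega
  set d : F := ct ^ m with hd
  have hρd : ρ d = D := by rw [hd, map_zpow, hct]
  set x : F := ct ^ p with hx
  have hρx : ρ x = 1 := by rw [hx, map_pow, hct, hcp]
  have hxB : x ∈ B := B.pow_mem hctB p
  -- transversal
  let T := Q ⧸ (zpowers D)
  have hTfin : Fintype T := Fintype.ofFinite T
  choose g hg using fun j : T => hρ (Quotient.out j)⁻¹
  set y : F := ((Finset.univ : Finset T).toList.map
    (fun j => (g j * ht * (g j)⁻¹) * x * (g j * ht * (g j)⁻¹)⁻¹)).prod with hy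
  have hyB : y ∈ B := by
    rw [hy]
    apply Subgroup.list_prod_mem
    intro z hz
    rw [List.mem_map] at hz
    obtain ⟨j, -, rfl⟩ := hz
    exact hB.conj_mem x hxB _
  have hρy : ρ y = 1 := by
    rw [hy, map_list_prod]
    apply List.prod_eq_one
    intro z hz
    rw [List.map_map, List.mem_map] at hz
    obtain ⟨j, -, rfl⟩ := hz
    simp only [Function.comp_apply, map_mul, map_inv, hρx]
    group
  refine ⟨y⁻¹ * d, B.mul_mem (B.inv_mem hyB) (B.zpow_mem hctB m), ?_⟩
  intro φ hφ
  set τ : F →* Q := (rightHom : N ⋊[θ] Q →* Q).comp φ with hτ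
  have hker : ∀ z : F, τ z = 1 ↔ ρ z = 1 := by
    intro z
    rw [← MonoidHom.mem_ker, ← MonoidHom.mem_ker, hφ]
  have hright : ∀ z : F, (φ z).right = τ z := fun z => rfl
  have hord : ∀ z : F, orderOf (τ z) = orderOf (ρ z) := by
    intro z
    apply orderOf_eq_orderOf_iff.mpr
    intro n
    rw [← map_pow, ← map_pow]
    exact hker _
  have hτx : τ x = 1 := (hker x).mpr hρx
  have hτy : τ y = 1 := (hker y).mpr hρy
  have hτd : orderOf (τ d) = p := by rw [hord, hρd, hDp]
  have hτdp : τ d ^ p = 1 := by rw [← hτd]; exact pow_orderOf_eq_one _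
  have hne : τ d ≠ 1 := by
    intro h1
    rw [h1, orderOf_one] at hτd
    exact hp.one_lt.ne hτd
  set a : N := (φ x).left with ha
  -- `a` is fixed by `τ d`
  have hfix : θ (τ d) a = a := by
    have h1 : d * x * d⁻¹ = x := by
      rw [hd, hx]
      have : Commute (ct ^ m) (ct ^ p) := by
        rw [← zpow_natCast]
        exact Commute.zpow_zpow_self ct m p
      rw [this.eq, mul_assoc, mul_inv_cancel, mul_one]
    have h2 := conj_left (φ d) (φ x) (by rw [hright]; exact hτx)
    rw [← map_mul, ← map_inv, ← map_mul, h1] at h2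
    exact h2.symm
  have hfixi : ∀ i : ℕ, θ ((τ d) ^ i)⁻¹ a = a := by
    intro i
    have h1 : ∀ i : ℕ, θ ((τ d) ^ i) a = a := by
      intro i
      induction i with
      | zero => simp
      | succ i ih => rw [pow_succ, map_mul, MulAut.mul_apply, hfix, ih]
    have h2 := congrArg (θ ((τ d) ^ i)⁻¹) (h1 i)
    rw [← MulAut.mul_apply, ← map_mul, inv_mul_cancel, map_one, MulAut.one_apply] at h2
    exact h2.symm
  -- the left part of `y`
  have hyl : (φ y).left = ∏ j : T, θ (τ (g j) * τ ht * (τ (g j))⁻¹) a := by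
    have h1 : φ y = (((Finset.univ : Finset T).toList.map
        (fun j => φ ((g j * ht * (g j)⁻¹) * x * (g j * ht * (g j)⁻¹)⁻¹)))).prod := by
      rw [hy, map_list_prod, List.map_map]
      rfl
    have h2 := list_prod_left (θ := θ) (((Finset.univ : Finset T).toList.map
        (fun j => φ ((g j * ht * (g j)⁻¹) * x * (g j * ht * (g j)⁻¹)⁻¹)))) (by
      intro z hz
      rw [List.mem_map] at hz
      obtain ⟨j, -, rfl⟩ := hz
      rw [hright]
      rw [hker]
      simp only [map_mul, map_inv, hρx]
      group)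
    rw [h1, h2.2, List.map_map, Finset.prod_map_toList]
    apply Finset.prod_congr rfl
    intro j _
    simp only [Function.comp_apply, map_mul, map_inv]
    have h3 := conj_left (φ (g j) * φ ht * (φ (g j))⁻¹) (φ x) (by rw [hright]; exact hτx)
    rw [mul_inv_rev, mul_inv_rev, inv_inv] at h3 ⊢
    rw [h3]
    simp only [mul_right, inv_right, hright, map_mul, map_inv]
    rfl
  -- the norm of the left part of `y`
  have hnorm : ∏ i ∈ Finset.range p, θ ((τ d) ^ i) (φ y).left = a ^ m := by
    have h1 : ∀ i : ℕ, θ ((τ d) ^ i) (φ y).left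
        = ∏ j : T, θ ((τ d ^ i * τ (g j)) * τ ht * (τ d ^ i * τ (g j))⁻¹) a := by
      intro i
      rw [hyl, map_prod]
      apply Finset.prod_congr rfl
      intro j _
      conv_lhs => rw [← hfixi i]
      rw [← MulAut.mul_apply, ← MulAut.mul_apply, ← map_mul, ← map_mul]
      congr 2
      group
    rw [Finset.prod_congr rfl (fun i _ => h1 i), Finset.prod_range, ← Fintype.prod_prod_type'
      (f := fun (i : Fin p) (j : T) =>
        θ ((τ d ^ (i : ℕ) * τ (g j)) * τ ht * (τ d ^ (i : ℕ) * τ (g j))⁻¹) a)]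
    have hbij : Function.Bijective (fun z : Fin p × T => τ d ^ (z.1 : ℕ) * τ (g z.2)) := by
      rw [Fintype.bijective_iff_injective_and_card]
      constructor
      · rintro ⟨i, j⟩ ⟨i', j'⟩ hij
        simp only at hij
        have h2 : ρ (d ^ (i : ℕ) * g j) = ρ (d ^ (i' : ℕ) * g j') := by
          have h3 : τ (d ^ (i : ℕ) * g j * (d ^ (i' : ℕ) * g j')⁻¹) = 1 := by
            rw [map_mul, map_mul, map_inv, map_mul, map_pow, map_pow, hij, mul_inv_cancel]
          rw [hker, map_mul, map_inv] at h3
          exact mul_inv_eq_one.mp h3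
        rw [map_mul, map_mul, map_pow, map_pow, hρd, hg, hg] at h2
        have h4 : j = j' := by
          rw [← Quotient.out_eq' j, ← Quotient.out_eq' j']
          apply QuotientGroup.eq.mpr
          have h5 : (Quotient.out j)⁻¹ * Quotient.out j' = (D ^ (i : ℕ))⁻¹ * D ^ (i' : ℕ) := by
            have h6 : (Quotient.out j)⁻¹
                = (D ^ (i : ℕ))⁻¹ * (D ^ (i' : ℕ) * (Quotient.out j')⁻¹) := by
              rw [← h2, ← mul_assoc, inv_mul_cancel, one_mul]
            rw [h6]
            group
          have h7 : (Quotient.out j)⁻¹ * Quotient.out j' ∈ zpowers D := by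
            rw [h5]
            exact mul_mem (inv_mem (pow_mem (mem_zpowers D) _)) (pow_mem (mem_zpowers D) _)
          exact h7
        subst h4
        have h8 : D ^ (i : ℕ) = D ^ (i' : ℕ) := mul_right_cancel h2
        have h9 : (i : ℕ) = i' := by
          apply pow_injOn_Iio_orderOf _ _ h8
          · rw [hDp]; exact i.2
          · rw [hDp]; exact i'.2
        rw [Fin.ext h9]
      · rw [Fintype.card_prod, Fintype.card_fin]
        have h2 := card_eq_card_quotient_mul_card_subgroup (zpowers D)
        rw [Nat.card_zpowers, hDp] at h2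
        rw [← Nat.card_eq_fintype_card, ← Nat.card_eq_fintype_card, h2, mul_comm]
    have h3 := Function.Bijective.prod_comp hbij (fun q : Q => θ (q * τ ht * q⁻¹) a)
    rw [h3]
    apply H
    rw [hord, hht]
  constructor
  · apply SemidirectProduct.ext
    · have hyr : (φ y).right = 1 := hτy
      have h1 : (φ (y⁻¹ * d)).right = τ d := by
        rw [hright, map_mul, map_inv, hτy, inv_one, one_mul]
      have h2 : (φ (y⁻¹ * d)).left = (φ y).left⁻¹ * (φ d).left := by
        rw [map_mul, map_inv, mul_left, inv_left, inv_right, hyr]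
        simp
      rw [pow_left, h1, h2]
      simp_rw [map_mul, map_inv]
      rw [Finset.prod_mul_distrib, Finset.prod_inv_distrib, hnorm]
      have h3 : ∏ i ∈ Finset.range p, θ (τ d ^ i) (φ d).left = ((φ d) ^ p).left := by
        rw [pow_left, hright]
      have h4 : (φ d) ^ p = (φ x) ^ m := by
        rw [← map_pow, ← map_zpow, hd, hx, ← zpow_natCast, ← zpow_natCast, ← zpow_mul, ← zpow_mul,
          mul_comm]
      have h5 : φ x = inl a := eq_inl hτx
      rw [h3, h4, h5, ← map_zpow, left_inl, one_left]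
      simp
    · rw [pow_right, hright, map_mul, map_inv, hτy, inv_one, one_mul, hτdp, one_right]
  · change τ (y⁻¹ * d) ≠ 1
    rw [map_mul, map_inv, hτy, inv_one, one_mul]
    exact hne

end Pool.Agent.LibMP91ins
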