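import Pool.Agent.Lib_MP_91def8_al.Word

set_option autoImplicit false

namespace Pool.Agent.LibMP91ins

open Subgroup
open Pool.Agent.LibMP91def8al

variable {F Q G : Type*} [Group F] [Group Q] [Group G]

/-- The element `t` is good at the surjection `ρ`: under every homomorphism to `G` whose composition
with `π` has the same kernel as `ρ` it has order dividing `p` and a nontrivial image in `Q`. -/
def Good (π : G →* Q) (p : ℕ) (ρ : F →* Q) (t : F) : Prop :=
  ∀ φ : F →* G, (π.comp φ).ker = ρ.ker → φ t ^ p = 1 ∧ π (φ t) ≠ 1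

theorem eq_one_of_mem (π : G →* Q) (hπ : ⁅π.ker, π.ker⁆ = (⊥ : Subgroup G)) {K : Subgroup F}
    (φ : F →* G) (h : K ≤ (π.comp φ).ker) {t : F} (ht : t ∈ ⁅K, K⁆) : φ t = 1 := by
  have h4 : φ t ∈ (⁅K, K⁆ : Subgroup F).map φ := mem_map_of_mem φ ht
  rw [map_commutator] at h4
  have h5 : K.map φ ≤ π.ker := by
    rw [map_le_iff_le_comap]
    intro x hx
    exact h hx
  have h6 := commutator_mono h5 h5 h4
  rwa [hπ, mem_bot] at h6

theorem Good.mul_right {π : G →* Q} (hπ : ⁅π.ker, π.ker⁆ = (⊥ : Subgroup G)) {p : ℕ} {ρ : F →* Q}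
    {t u : F} (ht : Good π p ρ t) (hu : u ∈ ⁅ρ.ker, ρ.ker⁆) : Good π p ρ (t * u) := by
  intro φ hφ
  have h1 : φ u = 1 := eq_one_of_mem π hπ φ (le_of_eq hφ.symm) hu
  rw [map_mul, h1, mul_one]
  exact ht φ hφ

theorem Good.mul_left {π : G →* Q} (hπ : ⁅π.ker, π.ker⁆ = (⊥ : Subgroup G)) {p : ℕ} {ρ : F →* Q}
    {t u : F} (ht : Good π p ρ t) (hu : u ∈ ⁅ρ.ker, ρ.ker⁆) : Good π p ρ (u * t) := by
  intro φ hφ
  have h1 : φ u = 1 := eq_one_of_mem π hπ φ (le_of_eq hφ.symm) hu
  rw [map_mul, h1, one_mul]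
  exact ht φ hφ

/-- Words good at each surjection can be combined into one word. -/
theorem combine [Finite Q] [IsSimpleGroup Q] (hQ : ∃ a b : Q, a * b ≠ b * a) [Finite (F →* Q)]
    (π : G →* Q) (hπ : ⁅π.ker, π.ker⁆ = (⊥ : Subgroup G)) (p : ℕ)
    (H : ∀ ρ : F →* Q, Function.Surjective ρ → ∀ B : Subgroup F, B.Normal → B.map ρ = ⊤ →
      ∃ t ∈ B, Good π p ρ t) :
    ∃ w : F, (∀ φ : F →* G, φ w ^ p = 1) ∧
      ∀ φ : F →* G, Function.Surjective (π.comp φ) → π (φ w) ≠ 1 := by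
  classical
  have := Fintype.ofFinite (F →* Q)
  set NS : Finset (F →* Q) := Finset.univ.filter (fun τ : F →* Q => ¬ Function.Surjective τ)
    with hNS
  set B : Subgroup F := NS.inf (fun τ => ⁅τ.ker, τ.ker⁆) with hB
  have nB : B.Normal := inf_normal _ _ (fun i _ => inferInstance)
  have hBtop : ∀ ρ : F →* Q, Function.Surjective ρ → B.map ρ = ⊤ := by
    intro ρ hρ
    apply map_finset_inf_eq_top hQ ρ hρ
    · intro i _; infer_instance
    · intro τ hτ
      have hτ' : ¬ Function.Surjective τ := by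
        simpa [hNS] using hτ
      have hk : τ.ker.map ρ = ⊤ := map_ker_eq_top ρ τ hρ
        (fun h => hτ' (ker_le_imp ρ τ hρ h).1)
      exact map_commutator_eq_top hQ ρ hk hk
  have key : ∀ S : Finset (F →* Q), (∀ ρ ∈ S, Function.Surjective ρ) →
      ∃ w ∈ B, (∀ ρ ∈ S, Good π p ρ w) ∧
        ∀ σ : F →* Q, Function.Surjective σ → (∀ ρ ∈ S, σ.ker ≠ ρ.ker) → w ∈ ⁅σ.ker, σ.ker⁆ := by
    intro S
    induction S using Finset.induction_on with
    | empty => intro _; exact ⟨1, B.one_mem, by simp, fun σ _ _ => one_mem _⟩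
    | insert ρ S hρS ih =>
      intro hS
      obtain ⟨w, hwB, hw, hwσ⟩ := ih (fun τ hτ => hS τ (Finset.mem_insert_of_mem hτ))
      have hρ := hS ρ (Finset.mem_insert_self _ _)
      by_cases hk : ∃ τ ∈ S, ρ.ker = τ.ker
      · obtain ⟨τ, hτ, hker⟩ := hk
        refine ⟨w, hwB, ?_, ?_⟩
        · intro σ hσ
          rcases Finset.mem_insert.mp hσ with rfl | hσ
          · intro φ hφ
            exact hw τ hτ φ (hφ.trans hker)
          · exact hw σ hσ
        · intro σ hσ1 hσ2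
          exact hwσ σ hσ1 (fun ρ' hρ' => hσ2 ρ' (Finset.mem_insert_of_mem hρ'))
      · push Not at hk
        set S' : Finset (F →* Q) := Finset.univ.filter
          (fun τ : F →* Q => Function.Surjective τ ∧ τ.ker ≠ ρ.ker) with hS'
        have nS' : (S'.inf (fun τ : F →* Q => ⁅τ.ker, τ.ker⁆)).Normal :=
          inf_normal _ _ (fun i _ => inferInstance)
        have hT : (B ⊓ S'.inf (fun τ : F →* Q => ⁅τ.ker, τ.ker⁆)).map ρ = ⊤ := by
          apply map_inf_eq_top hQ ρ nB nS' (hBtop ρ hρ)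
          apply map_finset_inf_eq_top hQ ρ hρ
          · intro i _; infer_instance
          · intro τ hτ
            have hτ' : Function.Surjective τ ∧ τ.ker ≠ ρ.ker := by
              simpa [hS'] using hτ
            have hk' : τ.ker.map ρ = ⊤ := map_ker_eq_top ρ τ hρ
              (fun h => hτ'.2 (ker_le_imp ρ τ hρ h).2)
            exact map_commutator_eq_top hQ ρ hk' hk'
        obtain ⟨t, ht, hgood⟩ := H ρ hρ (B ⊓ S'.inf (fun τ : F →* Q => ⁅τ.ker, τ.ker⁆))
          inferInstance hT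
        have htS' : ∀ τ : F →* Q, Function.Surjective τ → τ.ker ≠ ρ.ker → t ∈ ⁅τ.ker, τ.ker⁆ := by
          intro τ h1 h2
          have h3 : t ∈ S'.inf (fun τ : F →* Q => ⁅τ.ker, τ.ker⁆) := ht.2
          have h4 : S'.inf (fun τ : F →* Q => ⁅τ.ker, τ.ker⁆) ≤ ⁅τ.ker, τ.ker⁆ :=
            Finset.inf_le (f := fun τ : F →* Q => ⁅τ.ker, τ.ker⁆) (by simp [hS', h1, h2])
          exact h4 h3
        refine ⟨w * t, B.mul_mem hwB ht.1, ?_, ?_⟩
        · intro σ hσ
          rcases Finset.mem_insert.mp hσ with rfl | hσ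
          · exact hgood.mul_left hπ (hwσ σ hρ (fun τ hτ => hk τ hτ))
          · exact (hw σ hσ).mul_right hπ
              (htS' σ (hS σ (Finset.mem_insert_of_mem hσ)) (fun h => hk σ hσ h.symm))
        · intro σ hσ1 hσ2
          exact mul_mem (hwσ σ hσ1 (fun ρ' hρ' => hσ2 ρ' (Finset.mem_insert_of_mem hρ')))
            (htS' σ hσ1 (hσ2 ρ (Finset.mem_insert_self _ _)))
  obtain ⟨w, hwB, hw, -⟩ := key (Finset.univ.filter (fun τ : F →* Q => Function.Surjective τ))
    (by intro ρ hρ; simpa using hρ)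
  refine ⟨w, ?_, ?_⟩
  · intro φ
    by_cases hs : Function.Surjective (π.comp φ)
    · exact (hw (π.comp φ) (by simpa using hs) φ rfl).1
    · have h1 : w ∈ ⁅(π.comp φ).ker, (π.comp φ).ker⁆ := by
        have h2 : NS.inf (fun τ : F →* Q => ⁅τ.ker, τ.ker⁆) ≤ ⁅(π.comp φ).ker, (π.comp φ).ker⁆ :=
          Finset.inf_le (f := fun τ : F →* Q => ⁅τ.ker, τ.ker⁆) (by simpa [hNS] using hs)
        exact h2 hwB
      rw [eq_one_of_mem π hπ φ le_rfl h1, one_pow]
  · intro φ hs
    exact (hw (π.comp φ) (by simpa using hs) φ rfl).2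

end Pool.Agent.LibMP91ins
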