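import Mathlib

set_option autoImplicit false

namespace Pool.Agent.LibMP91ins

/-- `G` is residually finite: each `g ≠ 1` lies outside a normal subgroup of finite index. -/
def ResiduallyFinite (G : Type) [Group G] : Prop :=
  ∀ g : G, g ≠ 1 → ∃ H : Subgroup G, H.Normal ∧ H.FiniteIndex ∧ g ∉ H

/-- The verbal subgroup `w(G)`: generated by all values of the word `w` in `G`. -/
def verbalSubgroup {k : ℕ} (w : FreeGroup (Fin k)) (G : Type) [Group G] : Subgroup G :=
  Subgroup.closure (Set.range fun g : Fin k → G => FreeGroup.lift g w)

end Pool.Agent.LibMP91ins
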