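import Pool.Agent.Lib_MP_91def8_ins.Perm

set_option autoImplicit false
set_option maxRecDepth 100000

namespace Pool.Agent.LibMP91ins

open Subgroup SemidirectProduct

/-- The alternating group of degree five. -/
abbrev A5 : Type := alternatingGroup (Fin 5)

/-- A three-cycle. -/
def h3 : A5 := ⟨Equiv.swap 0 1 * Equiv.swap 1 2, by rw [Equiv.Perm.mem_alternatingGroup]; decide⟩

/-- A double transposition. -/
def h2 : A5 := ⟨Equiv.swap 0 1 * Equiv.swap 2 3, by rw [Equiv.Perm.mem_alternatingGroup]; decide⟩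

theorem cnt3 : ∀ x y : Fin 5, ((((Finset.univ : Finset A5).filter
    (fun q : A5 => (q * h3 * q⁻¹)⁻¹ • x = y)).card : ℕ) : ℤ)
    = 9 + 15 * (if y = x then 1 else 0) := by
  decide +kernel

theorem conj3 : ∀ h : A5, h ^ 3 = 1 → h ≠ 1 → ∃ r : A5, r * h3 * r⁻¹ = h := by
  decide +kernel

theorem conj2 : ∀ h : A5, h ^ 2 = 1 → h ≠ 1 → ∃ r : A5, r * h2 * r⁻¹ = h := by
  decide +kernel

theorem cnt2 : ∀ x y : Fin 5 × Fin 5, x.1 ≠ x.2 → y.1 ≠ y.2 → ((((Finset.univ : Finset A5).filter
    (fun q : A5 => (q * h2 * q⁻¹)⁻¹ • x = y)).card : ℕ) : ℤ) =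
     4 + 16 * (if y = (x.2, x.1) then 1 else 0) - 4 * (if y.1 = x.2 then 1 else 0)
      - 4 * (if y.2 = x.1 then 1 else 0) - 4 * (if y = x then 1 else 0) := by
  decide +kernel

theorem h3_pow : h3 ^ 3 = 1 := by decide +kernel
theorem h3_ne : h3 ≠ 1 := by decide +kernel
theorem h2_pow : h2 ^ 2 = 1 := by decide +kernel
theorem h2_ne : h2 ≠ 1 := by decide +kernel

section

variable {Q X : Type} [Group Q] [Fintype Q] [Fintype X] [DecidableEq X] [MulAction Q X]
  (N : Subgroup (X → Multiplicative ℤ))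
  (hN : ∀ (q : Q) (v : X → Multiplicative ℤ), v ∈ N → (fun x => v (q⁻¹ • x)) ∈ N)

theorem avg_of_counts (h : Q) (m : ℤ)
    (hs : ∀ v ∈ N, ∀ x, ∑ y, ((((Finset.univ : Finset Q).filter
      (fun q : Q => (q * h * q⁻¹)⁻¹ • x = y)).card : ℕ) : ℤ) * Multiplicative.toAdd (v y)
      = m * Multiplicative.toAdd (v x)) (u : N) :
    ∏ q : Q, act N hN (q * h * q⁻¹) u = u ^ m := by
  apply Subtype.ext
  funext x
  rw [prod_val]
  have h1 : (u ^ m).1 x = (u.1 x) ^ m := rfl
  rw [h1]
  apply Multiplicative.toAdd.injective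
  rw [toAdd_zpow, smul_eq_mul, ← hs u.1 u.2 x, toAdd_prod]
  simp only [act_apply]
  rw [← Finset.sum_fiberwise (s := (Finset.univ : Finset Q))
    (g := fun q : Q => (q * h * q⁻¹)⁻¹ • x)]
  apply Finset.sum_congr rfl
  intro y _
  rw [Finset.sum_congr rfl (g := fun _ => Multiplicative.toAdd (u.1 y))]
  · rw [Finset.sum_const, nsmul_eq_mul]
  · intro q hq
    rw [(Finset.mem_filter.mp hq).2]

theorem avg_conj {N' : Type*} [CommGroup N'] (θ : Q →* MulAut N') (h r : Q) (m : ℤ)
    (H : ∀ u : N', ∏ q : Q, θ (q * h * q⁻¹) u = u ^ m) (u : N') :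
    ∏ q : Q, θ (q * (r * h * r⁻¹) * q⁻¹) u = u ^ m := by
  rw [← H u]
  apply Fintype.prod_equiv (Equiv.mulRight r)
  intro q
  simp only [Equiv.coe_mulRight, mul_inv_rev]
  congr 2
  group

end

/-- The functions on `Fin m` with product one. -/
def sumZero (m : ℕ) : Subgroup (Fin m → Multiplicative ℤ) where
  carrier := {v | ∏ i, v i = 1}
  one_mem' := by simp
  mul_mem' := by
    intro a b ha hb
    change ∏ i, (a i * b i) = 1
    rw [Finset.prod_mul_distrib, ha, hb, one_mul]
  inv_mem' := by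
    intro a ha
    change ∏ i, (a i)⁻¹ = 1
    rw [Finset.prod_inv_distrib, ha, inv_one]

theorem mem_sumZero {m : ℕ} {v : Fin m → Multiplicative ℤ} : v ∈ sumZero m ↔ ∏ i, v i = 1 :=
  Iff.rfl

theorem sumZero_stable (m : ℕ) (q : alternatingGroup (Fin m)) (v : Fin m → Multiplicative ℤ)
    (hv : v ∈ sumZero m) : (fun x => v (q⁻¹ • x)) ∈ sumZero m := by
  rw [mem_sumZero] at hv ⊢
  rw [← hv]
  exact Equiv.prod_comp (MulAction.toPerm (q⁻¹) : Equiv.Perm (Fin m)) v

theorem sumZero_faith (m : ℕ) (hm : 3 ≤ m) (q : alternatingGroup (Fin m)) (hq : q ≠ 1) :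
    ∃ v ∈ sumZero m, ∃ x, v (q⁻¹ • x) ≠ v x := by
  obtain ⟨x, hx⟩ : ∃ x : Fin m, q⁻¹ • x ≠ x := by
    by_contra hcon
    push Not at hcon
    apply hq
    rw [← inv_eq_one]
    apply Subtype.ext
    apply Equiv.ext
    intro x
    exact hcon x
  obtain ⟨y, hy⟩ : ∃ y : Fin m, y ∉ ({x, q⁻¹ • x} : Finset (Fin m)) := by
    by_contra hcon
    push Not at hcon
    have h1 : (Finset.univ : Finset (Fin m)).card ≤ ({x, q⁻¹ • x} : Finset (Fin m)).card :=
      Finset.card_le_card (fun z _ => hcon z)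
    have h2 := Finset.card_le_two (a := x) (b := q⁻¹ • x)
    rw [Finset.card_univ, Fintype.card_fin] at h1
    omega
  rw [Finset.mem_insert, Finset.mem_singleton, not_or] at hy
  refine ⟨Pi.mulSingle x (Multiplicative.ofAdd 1) * Pi.mulSingle y (Multiplicative.ofAdd (-1)),
    ?_, x, ?_⟩
  · rw [mem_sumZero]
    simp only [Pi.mul_apply]
    rw [Finset.prod_mul_distrib, Finset.prod_pi_mulSingle', Finset.prod_pi_mulSingle']
    simp only [Finset.mem_univ, if_true]
    rfl
  · simp only [Pi.mul_apply]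
    rw [Pi.mulSingle_eq_of_ne hx, Pi.mulSingle_eq_same, Pi.mulSingle_eq_of_ne (Ne.symm hy.1),
      Pi.mulSingle_eq_of_ne (Ne.symm hy.2), mul_one, mul_one]
    intro h
    have h1 : (0 : ℤ) = 1 := h
    omega

theorem noncomm (m : ℕ) (hm : 5 ≤ m) : ∃ a b : alternatingGroup (Fin m), a * b ≠ b * a := by
  have : IsSimpleGroup (alternatingGroup (Fin m)) :=
    alternatingGroup.isSimpleGroup (by simpa using hm)
  by_contra h
  push Not at h
  have h1 : Nat.Prime (Nat.card (alternatingGroup (Fin m))) := by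
    let _ : CommGroup (alternatingGroup (Fin m)) :=
      { (inferInstance : Group (alternatingGroup (Fin m))) with mul_comm := h }
    exact IsSimpleGroup.prime_card
  have : Nontrivial (Fin m) := Fin.nontrivial_iff_two_le.mpr (by omega)
  have h2 : 2 * Nat.card (alternatingGroup (Fin m)) = m.factorial := by
    rw [two_mul_nat_card_alternatingGroup, Nat.card_perm, Nat.card_eq_fintype_card, Fintype.card_fin]
  have h3 : Nat.factorial 4 ∣ m.factorial := Nat.factorial_dvd_factorial (by omega)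
  rw [← h2] at h3
  have h4 : (24 : ℕ) ∣ 2 * Nat.card (alternatingGroup (Fin m)) := h3
  obtain ⟨t, ht⟩ := h4
  have h5 : Nat.card (alternatingGroup (Fin m)) = 2 * (6 * t) := by omega
  have h6 : Nat.card (alternatingGroup (Fin m)) = 3 * (4 * t) := by omega
  have h7 := (Nat.prime_dvd_prime_iff_eq Nat.prime_two h1).mp ⟨_, h5⟩
  have h8 := (Nat.prime_dvd_prime_iff_eq Nat.prime_three h1).mp ⟨_, h6⟩
  omega

theorem order_eq_conj {p : ℕ} (hp : p.Prime) (h : A5) (hh : h ^ p = 1) (hne : h ≠ 1)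
    (hconj : ∀ h' : A5, h' ^ p = 1 → h' ≠ 1 → ∃ r : A5, r * h * r⁻¹ = h') (h' : A5)
    (ho : orderOf h' = orderOf h) : ∃ r : A5, r * h * r⁻¹ = h' := by
  have := Fact.mk hp
  have h1 : orderOf h = p := orderOf_eq_prime hh hne
  apply hconj
  · rw [← h1, ← ho]; exact pow_orderOf_eq_one _
  · intro h2
    rw [h2, orderOf_one, h1] at ho
    exact hp.one_lt.ne ho

theorem fails_two (n : ℕ) (hn : 2 ∣ n) : Fails n := by
  have hs : IsSimpleGroup A5 := alternatingGroup.isSimpleGroup (by simp)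
  apply fails_of (Q := A5) (X := Fin 5) (sumZero 5) (sumZero_stable 5) (noncomm 5 le_rfl)
    (sumZero_faith 5 (by norm_num)) 2 n hn
  intro k ρ hρ B hB hBρ
  have := Fact.mk Nat.prime_two
  have h1 : orderOf h2 = 2 := orderOf_eq_prime h2_pow h2_ne
  apply good_of_avg Nat.prime_two h2 h3 h1 15 (by norm_num [Int.isCoprime_iff_gcd_eq_one]) _ ρ hρ B
    hB hBρ
  intro h' ho
  obtain ⟨r, rfl⟩ := order_eq_conj Nat.prime_three h3 h3_pow h3_ne conj3 h' ho
  apply avg_conj
  apply avg_of_counts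
  intro v hv x
  rw [Finset.sum_congr rfl (fun y _ => by rw [cnt3 x y])]
  rw [mem_sumZero] at hv
  have hv' : ∑ y, Multiplicative.toAdd (v y) = 0 := by
    rw [← toAdd_prod, hv]; rfl
  simp only [add_mul, Finset.sum_add_distrib, ← Finset.mul_sum, hv', mul_assoc, ite_mul, one_mul,
    zero_mul, Finset.sum_ite_eq', Finset.mem_univ, if_true]
  ring

/-- The antisymmetric functions on pairs with row products one. -/
def antiSym : Subgroup (Fin 5 × Fin 5 → Multiplicative ℤ) where
  carrier := {v | (∀ i j, v (i, j) * v (j, i) = 1) ∧ ∀ i, ∏ j, v (i, j) = 1}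
  one_mem' := by simp
  mul_mem' := by
    rintro a b ⟨ha1, ha2⟩ ⟨hb1, hb2⟩
    refine ⟨fun i j => ?_, fun i => ?_⟩
    · change a (i, j) * b (i, j) * (a (j, i) * b (j, i)) = 1
      rw [mul_mul_mul_comm, ha1, hb1, one_mul]
    · change ∏ j, (a (i, j) * b (i, j)) = 1
      rw [Finset.prod_mul_distrib, ha2, hb2, one_mul]
  inv_mem' := by
    rintro a ⟨ha1, ha2⟩
    refine ⟨fun i j => ?_, fun i => ?_⟩
    · change (a (i, j))⁻¹ * (a (j, i))⁻¹ = 1
      rw [← mul_inv, ha1, inv_one]
    · change ∏ j, (a (i, j))⁻¹ = 1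
      rw [Finset.prod_inv_distrib, ha2, inv_one]

theorem antiSym_stable (q : A5) (v : Fin 5 × Fin 5 → Multiplicative ℤ)
    (hv : v ∈ antiSym) : (fun x => v (q⁻¹ • x)) ∈ antiSym := by
  obtain ⟨h1, h2⟩ := hv
  refine ⟨fun i j => h1 _ _, fun i => ?_⟩
  rw [← h2 (q⁻¹ • i)]
  exact Equiv.prod_comp (MulAction.toPerm (q⁻¹) : Equiv.Perm (Fin 5)) (fun j => v (q⁻¹ • i, j))

/-- The antisymmetric function of a triangle. -/
def tri (x y z : Fin 5) : Fin 5 × Fin 5 → ℤ := fun w =>
  (if w = (x, y) then 1 else 0) + (if w = (y, z) then 1 else 0) + (if w = (z, x) then 1 else 0)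
  - (if w = (y, x) then 1 else 0) - (if w = (z, y) then 1 else 0) - (if w = (x, z) then 1 else 0)

theorem tri_anti : ∀ x y z i j : Fin 5, tri x y z (i, j) + tri x y z (j, i) = 0 := by
  decide +kernel

theorem tri_row : ∀ x y z i : Fin 5, ∑ j, tri x y z (i, j) = 0 := by
  decide +kernel

theorem tri_faith : ∀ q : A5, q ≠ 1 → ∃ x y z : Fin 5, ∃ w : Fin 5 × Fin 5,
    tri x y z (q⁻¹ • w) ≠ tri x y z w := by
  decide +kernel

theorem antiSym_faith (q : A5) (hq : q ≠ 1) : ∃ v ∈ antiSym, ∃ x, v (q⁻¹ • x) ≠ v x := by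
  obtain ⟨x, y, z, w, hw⟩ := tri_faith q hq
  refine ⟨fun u => Multiplicative.ofAdd (tri x y z u), ⟨fun i j => ?_, fun i => ?_⟩, w, ?_⟩
  · exact tri_anti x y z i j
  · rw [← ofAdd_sum, tri_row]; rfl
  · intro h
    exact hw h

theorem fails_three (n : ℕ) (hn : 3 ∣ n) : Fails n := by
  have hs : IsSimpleGroup A5 := alternatingGroup.isSimpleGroup (by simp)
  apply fails_of (Q := A5) (X := Fin 5 × Fin 5) antiSym antiSym_stable (noncomm 5 le_rfl)
    antiSym_faith 3 n hn
  intro k ρ hρ B hB hBρ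
  have := Fact.mk Nat.prime_three
  have h1 : orderOf h3 = 3 := orderOf_eq_prime h3_pow h3_ne
  apply good_of_avg Nat.prime_three h3 h2 h1 (-20)
    (by rw [Int.isCoprime_iff_gcd_eq_one]; decide) _ ρ hρ B hB hBρ
  intro h' ho
  obtain ⟨r, rfl⟩ := order_eq_conj Nat.prime_two h2 h2_pow h2_ne conj2 h' ho
  apply avg_conj
  apply avg_of_counts
  rintro v ⟨hv1, hv2⟩ x
  set a : Fin 5 × Fin 5 → ℤ := fun y => Multiplicative.toAdd (v y) with ha
  have ha1 : ∀ i j, a (i, j) + a (j, i) = 0 := fun i j => hv1 i j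
  have ha2 : ∀ i, ∑ j, a (i, j) = 0 := by
    intro i
    rw [ha, ← toAdd_prod, hv2 i]; rfl
  have hdiag : ∀ i, a (i, i) = 0 := by
    intro i
    have := ha1 i i
    omega
  have ha3 : ∀ j, ∑ i, a (i, j) = 0 := by
    intro j
    have h2 : ∀ i, a (i, j) = - a (j, i) := by
      intro i
      have := ha1 i j
      omega
    rw [Finset.sum_congr rfl (fun i _ => h2 i), Finset.sum_neg_distrib, ha2, neg_zero]
  change ∑ y, ((((Finset.univ : Finset A5).filter
      (fun q : A5 => (q * h2 * q⁻¹)⁻¹ • x = y)).card : ℕ) : ℤ) * a y = -20 * a x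
  obtain ⟨i, j⟩ := x
  by_cases hij : i = j
  · subst hij
    rw [hdiag, mul_zero]
    apply Finset.sum_eq_zero
    rintro ⟨k, l⟩ _
    by_cases hkl : k = l
    · subst hkl
      rw [hdiag, mul_zero]
    · have h2 : ((Finset.univ : Finset A5).filter
          (fun q : A5 => (q * h2 * q⁻¹)⁻¹ • (i, i) = (k, l))) = ∅ := by
        rw [Finset.filter_eq_empty_iff]
        intro q _ hq
        apply hkl
        have h3 : (q * h2 * q⁻¹)⁻¹ • i = k := congrArg Prod.fst hq
        have h4 : (q * h2 * q⁻¹)⁻¹ • i = l := congrArg Prod.snd hq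
        rw [← h3, h4]
      rw [h2]
      simp
  · have h2 : ∀ y : Fin 5 × Fin 5, ((((Finset.univ : Finset A5).filter
        (fun q : A5 => (q * h2 * q⁻¹)⁻¹ • (i, j) = y)).card : ℕ) : ℤ) * a y
        = 4 * a y + 16 * (if y = (j, i) then a y else 0) - 4 * (if y.1 = j then a y else 0)
          - 4 * (if y.2 = i then a y else 0) - 4 * (if y = (i, j) then a y else 0) := by
      rintro ⟨k, l⟩
      by_cases hkl : k = l
      · subst hkl
        rw [hdiag]
        simp
      · rw [cnt2 (i, j) (k, l) hij hkl]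
        simp only [sub_mul, add_mul, mul_assoc, ite_mul, one_mul, zero_mul]
    rw [Finset.sum_congr rfl (fun y _ => h2 y)]
    simp only [Finset.sum_sub_distrib, Finset.sum_add_distrib, ← Finset.mul_sum,
      Finset.sum_ite_eq', Finset.mem_univ, if_true]
    have h3 : ∑ y : Fin 5 × Fin 5, a y = 0 := by
      rw [Fintype.sum_prod_type]
      exact Finset.sum_eq_zero (fun i _ => ha2 i)
    have h4 : ∑ y : Fin 5 × Fin 5, (if y.1 = j then a y else 0) = 0 := by
      rw [Fintype.sum_prod_type, Finset.sum_comm]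
      simp only [Finset.sum_ite_eq', Finset.mem_univ, if_true]
      exact ha2 j
    have h5 : ∑ y : Fin 5 × Fin 5, (if y.2 = i then a y else 0) = 0 := by
      rw [Fintype.sum_prod_type]
      simp only [Finset.sum_ite_eq', Finset.mem_univ, if_true]
      exact ha3 i
    rw [h3, h4, h5]
    have h6 := ha1 i j
    linarith

theorem transitive_of_order {p : ℕ} (hp : p.Prime) (q : Equiv.Perm (Fin p)) (hq : orderOf q = p)
    (i k : Fin p) : ∃ j < p, (q ^ j)⁻¹ i = k := by
  have hc : q.IsCycle := Equiv.Perm.isCycle_of_prime_order'' (by simpa using hp) (by simpa using hq)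
  have hs : q.support = Finset.univ := by
    rw [← Finset.card_eq_iff_eq_univ, ← hc.orderOf, hq]; simp
  have hi : q i ≠ i := by
    rw [← Equiv.Perm.mem_support, hs]; exact Finset.mem_univ _
  have hk : q k ≠ k := by
    rw [← Equiv.Perm.mem_support, hs]; exact Finset.mem_univ _
  obtain ⟨n, hn⟩ := hc.exists_pow_eq hk hi
  refine ⟨n % p, Nat.mod_lt _ hp.pos, ?_⟩
  have h5 : q ^ (n % p) = q ^ n := by
    have := pow_mod_orderOf q n
    rwa [hq] at this
  rw [Equiv.Perm.inv_eq_iff_eq, h5, hn]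

theorem prod_orbit {p : ℕ} (hp : p.Prime) (q : alternatingGroup (Fin p)) (hq : orderOf q = p)
    (f : Fin p → Multiplicative ℤ) (i : Fin p) :
    ∏ j ∈ Finset.range p, f ((q ^ j)⁻¹ • i) = ∏ k, f k := by
  have hq' : orderOf (q : Equiv.Perm (Fin p)) = p := by
    exact (Subgroup.orderOf_coe q).trans hq
  have hsurj : (Finset.range p).image (fun j => (q ^ j)⁻¹ • i) = Finset.univ := by
    apply Finset.eq_univ_of_forall
    intro k
    obtain ⟨j, hj, hjk⟩ := transitive_of_order hp (q : Equiv.Perm (Fin p)) hq' i k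
    rw [Finset.mem_image]
    exact ⟨j, Finset.mem_range.mpr hj, hjk⟩
  rw [← hsurj, Finset.prod_image]
  apply Finset.card_image_iff.mp
  rw [hsurj]; simp

theorem fails_large (p n : ℕ) (hp : p.Prime) (hp5 : 5 ≤ p) (hn : p ∣ n) : Fails n := by
  have hs : IsSimpleGroup (alternatingGroup (Fin p)) :=
    alternatingGroup.isSimpleGroup (by simpa using hp5)
  apply fails_of (Q := alternatingGroup (Fin p)) (X := Fin p) (sumZero p) (sumZero_stable p)
    (noncomm p hp5) (sumZero_faith p (by omega)) p n hn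
  intro k ρ hρ B hB hBρ
  have := Fact.mk hp
  obtain ⟨c, hc⟩ : ∃ c : alternatingGroup (Fin p), orderOf c = p := by
    have : Nontrivial (Fin p) := Fin.nontrivial_iff_two_le.mpr (by omega)
    have h2 : 2 * Nat.card (alternatingGroup (Fin p)) = p.factorial := by
      rw [two_mul_nat_card_alternatingGroup, Nat.card_perm, Nat.card_eq_fintype_card,
        Fintype.card_fin]
    have h3 : p ∣ 2 * Nat.card (alternatingGroup (Fin p)) := by
      rw [h2]; exact Nat.dvd_factorial hp.pos le_rfl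
    have h4 : p ∣ Nat.card (alternatingGroup (Fin p)) := by
      rcases (hp.dvd_mul).mp h3 with h | h
      · have := Nat.le_of_dvd (by norm_num) h
        omega
      · exact h
    exact exists_prime_orderOf_dvd_card' p h4
  obtain ⟨t, htB, htc⟩ : ∃ x ∈ B, ρ x = c := by
    have : c ∈ B.map ρ := by rw [hBρ]; exact mem_top _
    obtain ⟨x, hx, h1⟩ := this
    exact ⟨x, hx, h1⟩
  refine ⟨t, htB, ?_⟩
  intro φ hφ
  have hord : orderOf ((φ t).right) = p := by
    refine Eq.trans ?_ (htc ▸ hc : orderOf (ρ t) = p)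
    apply orderOf_eq_orderOf_iff.mpr
    intro n
    have h1 : (φ t).right ^ n = 1 ↔
        ((rightHom : (sumZero p ⋊[act (sumZero p) (sumZero_stable p)]
          alternatingGroup (Fin p)) →* alternatingGroup (Fin p)).comp φ) (t ^ n) = 1 := by
      rw [map_pow]; rfl
    rw [h1, ← MonoidHom.mem_ker, hφ, MonoidHom.mem_ker, map_pow]
  constructor
  · apply SemidirectProduct.ext
    · apply Subtype.ext
      funext x
      rw [pow_left, prod_val]
      simp only [act_apply]
      rw [prod_orbit hp _ hord]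
      exact (φ t).left.2
    · rw [pow_right]
      have h3 := pow_orderOf_eq_one (φ t).right
      rwa [hord] at h3
  · intro h1
    have h2 : (φ t).right = 1 := h1
    rw [h2, orderOf_one] at hord
    exact hp.one_lt.ne hord

theorem fails (n : ℕ) (hn : 2 ≤ n) : Fails n := by
  obtain ⟨p, hp, hpn⟩ := Nat.exists_prime_and_dvd (show n ≠ 1 by omega)
  by_cases h2 : p = 2
  · subst h2; exact fails_two n hpn
  by_cases h3 : p = 3
  · subst h3; exact fails_three n hpn
  have h4 : p ≠ 4 := by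
    rintro rfl
    norm_num at hp
  have := hp.two_le
  exact fails_large p n hp (by omega) hpn

end Pool.Agent.LibMP91ins
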