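import Pool.Agent.Lib_MP_91def8_ins.Avg
import Pool.Agent.Lib_MP_91def8_ins.Defs

set_option autoImplicit false

namespace Pool.Agent.LibMP91ins

open Subgroup SemidirectProduct

section

variable {Q X : Type} [Group Q] [MulAction Q X] (N : Subgroup (X → Multiplicative ℤ))
  (hN : ∀ (q : Q) (v : X → Multiplicative ℤ), v ∈ N → (fun x => v (q⁻¹ • x)) ∈ N)

/-- The action of `Q` on a stable group of functions on `X`. -/
def act : Q →* MulAut N where
  toFun q :=
    { toFun := fun v => ⟨fun x => v.1 (q⁻¹ • x), hN q v.1 v.2⟩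
      invFun := fun v => ⟨fun x => v.1 (q • x), by simpa using hN q⁻¹ v.1 v.2⟩
      left_inv := by
        intro v
        apply Subtype.ext
        funext x
        simp
      right_inv := by
        intro v
        apply Subtype.ext
        funext x
        simp
      map_mul' := by
        intro u v
        rfl }
  map_one' := by
    apply MulEquiv.ext
    intro v
    apply Subtype.ext
    funext x
    simp
  map_mul' q r := by
    apply MulEquiv.ext
    intro v
    apply Subtype.ext
    funext x
    simp [mul_smul]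

theorem act_apply (q : Q) (v : N) (x : X) : (act N hN q v).1 x = v.1 (q⁻¹ • x) := rfl

theorem pow_val (v : N) (n : ℕ) (x : X) : (v ^ n).1 x = v.1 x ^ n := rfl

theorem prod_val {ι : Type*} (s : Finset ι) (f : ι → N) (x : X) :
    (∏ i ∈ s, f i).1 x = ∏ i ∈ s, (f i).1 x := by
  rw [Subgroup.val_finsetProd, Finset.prod_apply]

/-- The elements over `1` whose left part is divisible by `k`. -/
def congrSub (k : ℕ) : Subgroup (N ⋊[act N hN] Q) where
  carrier := {g | g.right = 1 ∧ ∀ x, (k : ℤ) ∣ Multiplicative.toAdd (g.left.1 x)}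
  one_mem' := by
    refine ⟨rfl, fun x => ?_⟩
    simp
  mul_mem' := by
    rintro a b ⟨ha1, ha2⟩ ⟨hb1, hb2⟩
    refine ⟨by rw [mul_right, ha1, hb1, one_mul], fun x => ?_⟩
    have h1 : (a * b).left = a.left * b.left := by
      rw [mul_left, ha1, map_one, MulAut.one_apply]
    rw [h1]
    exact dvd_add (ha2 x) (hb2 x)
  inv_mem' := by
    rintro a ⟨ha1, ha2⟩
    refine ⟨by rw [inv_right, ha1, inv_one], fun x => ?_⟩
    have h1 : (a⁻¹).left = a.left⁻¹ := by
      rw [inv_left, ha1, inv_one, map_one, MulAut.one_apply]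
    rw [h1]
    exact (dvd_neg (α := ℤ)).mpr (ha2 x)

theorem congrSub_finiteIndex [Finite Q] [Finite X] (k : ℕ) (hk : k ≠ 0) :
    (congrSub N hN k).FiniteIndex := by
  have : NeZero k := ⟨hk⟩
  have hfin : Finite ((N ⋊[act N hN] Q) ⧸ congrSub N hN k) := by
    let f : ((N ⋊[act N hN] Q) ⧸ congrSub N hN k) → Q × (X → ZMod k) := fun z =>
      ((Quotient.out z)⁻¹.right,
        fun x => ((Multiplicative.toAdd ((Quotient.out z)⁻¹.left.1 x) : ℤ) : ZMod k))
    apply Finite.of_injective f
    intro a b hab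
    rw [← Quotient.out_eq' a, ← Quotient.out_eq' b]
    apply QuotientGroup.eq.mpr
    have h1 : (Quotient.out a)⁻¹.right = (Quotient.out b)⁻¹.right := congrArg Prod.fst hab
    have h2 : ∀ x, ((Multiplicative.toAdd ((Quotient.out a)⁻¹.left.1 x) : ℤ) : ZMod k)
        = ((Multiplicative.toAdd ((Quotient.out b)⁻¹.left.1 x) : ℤ) : ZMod k) :=
      fun x => congrFun (congrArg Prod.snd hab) x
    generalize hu : (Quotient.out a)⁻¹ = u at h1 h2 ⊢
    have h3 : Quotient.out b = ((Quotient.out b)⁻¹)⁻¹ := (inv_inv _).symm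
    rw [h3]
    generalize hv : (Quotient.out b)⁻¹ = v at h1 h2 ⊢
    refine ⟨?_, ?_⟩
    · change u.right * (v⁻¹).right = 1
      rw [inv_right, h1, mul_inv_cancel]
    · intro x
      have h4 : (u * v⁻¹).left.1 x = u.left.1 x * (v.left.1 x)⁻¹ := by
        have h5 : (u * v⁻¹).left = u.left * v.left⁻¹ := by
          rw [mul_left, inv_left, ← MulAut.mul_apply, ← map_mul, h1, mul_inv_cancel, map_one,
            MulAut.one_apply]
        rw [h5]
        rfl
      change (k : ℤ) ∣ Multiplicative.toAdd ((u * v⁻¹).left.1 x)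
      rw [h4]
      have h5 := h2 x
      have h6 : (k : ℤ) ∣ Multiplicative.toAdd (u.left.1 x) - Multiplicative.toAdd (v.left.1 x) := by
        rw [← ZMod.intCast_zmod_eq_zero_iff_dvd]
        push_cast
        rw [h5, sub_self]
      exact h6
  exact Subgroup.finiteIndex_of_finite_quotient

theorem residuallyFinite [Finite Q] [Finite X] : ResiduallyFinite (N ⋊[act N hN] Q) := by
  intro g hg
  by_cases hr : g.right = 1
  · have hl : ∃ x, g.left.1 x ≠ 1 := by
      by_contra hcon
      push Not at hcon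
      apply hg
      apply SemidirectProduct.ext
      · apply Subtype.ext
        funext i
        exact hcon i
      · exact hr
    obtain ⟨x, hx⟩ := hl
    set m : ℕ := (Multiplicative.toAdd (g.left.1 x)).natAbs + 1 with hm
    have hfi := congrSub_finiteIndex N hN m (by omega)
    refine ⟨(congrSub N hN m).normalCore, inferInstance, inferInstance, ?_⟩
    intro hmem
    have h1 := (normalCore_le (congrSub N hN m) hmem).2 x
    have h4 : (Multiplicative.toAdd (g.left.1 x) : ℤ) ≠ 0 := fun h => hx (by exact h)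
    have h5 := Int.natAbs_dvd_natAbs.mpr h1
    have h6 := Nat.le_of_dvd (Int.natAbs_pos.mpr h4) h5
    simp only [Int.natAbs_natCast] at h6
    omega
  · refine ⟨(rightHom : (N ⋊[act N hN] Q) →* Q).ker, inferInstance, inferInstance, ?_⟩
    intro hmem
    exact hr (MonoidHom.mem_ker.mp hmem)

/-- What has to be shown for the exponent `n`. -/
def Fails (n : ℕ) : Prop :=
  ∃ (k : ℕ) (w : FreeGroup (Fin k)) (G : Type) (_ : Group G),
    ResiduallyFinite G ∧
    (∃ (r : ℕ) (A : Subgroup G) (e : A →* (Fin r → Multiplicative ℤ)),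
      A.Normal ∧ A.FiniteIndex ∧ Function.Injective e) ∧
    (∀ g : Fin k → G, FreeGroup.lift g w ^ n = 1) ∧
    ∃ x ∈ verbalSubgroup w G, ¬ IsOfFinOrder x

theorem fails_of [Fintype Q] [Finite X] [IsSimpleGroup Q] (hQ : ∃ a b : Q, a * b ≠ b * a)
    (hfaith : ∀ q : Q, q ≠ 1 → ∃ v ∈ N, ∃ x, v (q⁻¹ • x) ≠ v x) (p n : ℕ) (hpn : p ∣ n)
    (H : ∀ (k : ℕ) (ρ : FreeGroup (Fin k) →* Q), Function.Surjective ρ →
      ∀ B : Subgroup (FreeGroup (Fin k)), B.Normal → B.map ρ = ⊤ →
      ∃ t ∈ B, Good (rightHom : (N ⋊[act N hN] Q) →* Q) p ρ t) : Fails n := by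
  classical
  have e : Fin (Fintype.card Q) ≃ Q := (Fintype.equivFin Q).symm
  generalize Fintype.card Q = k at e
  have : Finite (FreeGroup (Fin k) →* Q) := Finite.of_equiv _ (FreeGroup.lift (β := Q))
  obtain ⟨w, hw1, hw2⟩ := combine (F := FreeGroup (Fin k)) hQ
    (rightHom : (N ⋊[act N hN] Q) →* Q) comm_ker p (H k)
  refine ⟨k, w, N ⋊[act N hN] Q, inferInstance, residuallyFinite N hN, ?_, ?_, ?_⟩
  · have := Fintype.ofFinite X
    let eX : Fin (Fintype.card X) ≃ X := (Fintype.equivFin X).symm
    refine ⟨Fintype.card X, (rightHom : (N ⋊[act N hN] Q) →* Q).ker,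
      { toFun := fun a i => a.1.left.1 (eX i)
        map_one' := rfl
        map_mul' := ?_ }, inferInstance, inferInstance, ?_⟩
    · rintro ⟨a, ha⟩ ⟨b, hb⟩
      funext i
      have h1 : a.right = 1 := MonoidHom.mem_ker.mp ha
      change ((a * b).left).1 (eX i) = a.left.1 (eX i) * b.left.1 (eX i)
      rw [mul_left, h1, map_one, MulAut.one_apply]
      rfl
    · rintro ⟨a, ha⟩ ⟨b, hb⟩ hab
      have ha1 : a.right = 1 := MonoidHom.mem_ker.mp ha
      have hb1 : b.right = 1 := MonoidHom.mem_ker.mp hb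
      apply Subtype.ext
      apply SemidirectProduct.ext
      · apply Subtype.ext
        funext x
        have h1 := congrFun hab (eX.symm x)
        have h2 : a.left.1 (eX (eX.symm x)) = b.left.1 (eX (eX.symm x)) := h1
        rwa [eX.apply_symm_apply] at h2
      · change a.right = b.right
        rw [ha1, hb1]
  · intro g
    obtain ⟨m, rfl⟩ := hpn
    rw [pow_mul, hw1, one_pow]
  · -- an element of infinite order
    set φ : FreeGroup (Fin k) →* (N ⋊[act N hN] Q) :=
      FreeGroup.lift (fun a => SemidirectProduct.inr (e a)) with hφ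
    have hs : Function.Surjective
        ((rightHom : (N ⋊[act N hN] Q) →* Q).comp φ) := by
      intro q
      refine ⟨FreeGroup.of (e.symm q), ?_⟩
      simp [hφ]
    have hc := hw2 φ hs
    set c : Q := rightHom (φ w) with hcdef
    obtain ⟨v, hv, x, hx⟩ := hfaith c⁻¹ (inv_ne_one.mpr hc)
    rw [inv_inv] at hx
    set u : N ⋊[act N hN] Q := inl ⟨v, hv⟩ with hu
    have hconj : FreeGroup.lift (fun a => u * SemidirectProduct.inr (e a) * u⁻¹) w
        = u * φ w * u⁻¹ := by
      have : FreeGroup.lift (fun a => u * (SemidirectProduct.inr (e a) : N ⋊[act N hN] Q) * u⁻¹)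
          = (MulAut.conj u).toMonoidHom.comp φ := by
        apply FreeGroup.ext_hom
        intro a
        simp [hφ]
      rw [this, MonoidHom.comp_apply]
      simp
    refine ⟨(φ w)⁻¹ * (u * φ w * u⁻¹), ?_, ?_⟩
    · apply Subgroup.mul_mem
      · apply Subgroup.inv_mem
        exact Subgroup.subset_closure ⟨_, rfl⟩
      · rw [← hconj]
        exact Subgroup.subset_closure ⟨_, rfl⟩
    · intro hfo
      obtain ⟨m, hm, hgm⟩ := isOfFinOrder_iff_pow_eq_one.mp hfo
      set g : N ⋊[act N hN] Q := (φ w)⁻¹ * (u * φ w * u⁻¹) with hg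
      have hur : u.right = 1 := rfl
      have hul : u.left = ⟨v, hv⟩ := rfl
      have hgr : g.right = 1 := by
        simp [hg, hur]
      have hwr : (φ w).right = c := rfl
      have hgl : g.left = act N hN c⁻¹ ⟨v, hv⟩ * (⟨v, hv⟩ : N)⁻¹ := by
        have h1 : g = ((φ w)⁻¹ * u * ((φ w)⁻¹)⁻¹) * u⁻¹ := by
          rw [hg]; group
        rw [h1, mul_left, conj_left _ _ hur, inv_left, hur, inv_right, hwr, hul]
        have h2 : ((φ w)⁻¹ * u * ((φ w)⁻¹)⁻¹).right = 1 := by
          rw [mul_right, mul_right, inv_right, hur]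
          group
        rw [h2]
        simp
      have h6 : (g ^ m).left = (g.left) ^ m := by
        rw [pow_left, hgr]
        simp
      rw [hgm] at h6
      have h7 : (1 : Multiplicative ℤ) = (g.left.1 x) ^ m := by
        have := congrArg (fun z : N => z.1 x) h6
        exact this
      have h8 : g.left.1 x = 1 := by
        have h9 : (0 : ℤ) = m • Multiplicative.toAdd (g.left.1 x) := h7
        have h10 : Multiplicative.toAdd (g.left.1 x) = 0 := by
          rw [nsmul_eq_mul] at h9
          rcases mul_eq_zero.mp h9.symm with h | h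
          · exfalso
            have : (m : ℤ) = 0 := h
            omega
          · exact h
        exact h10
      rw [hgl] at h8
      have h9 : v ((c⁻¹)⁻¹ • x) * (v x)⁻¹ = 1 := h8
      rw [inv_inv, mul_inv_eq_one] at h9
      exact hx h9

end

end Pool.Agent.LibMP91ins
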